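import Pool.Agent.Lib.MP_f3eb7e_an.Upgrade

/-!
# Rearrangement hull of the Legendre maximal operator

For every `p > 1` (in particular for `p = 8/7`) the class `M^p` is contained in `RH_0(A)`, where `A`
is the class of integrable functions on `[-1,1]` whose Legendre maximal partial sum function is
integrable.
-/

set_option autoImplicit false

namespace Pool.Agent.Results.MP_f3eb7e_an.LegendreHull

open Pool.Agent.MP_f3eb7e

/-- `M^p ⊆ RH_0(A)` for all `p > 1`. -/
theorem result : ∀ p : ℝ, 1 < p → classM p ⊆ RH0 classA :=
  fun _ hp => classM_subset hp

end Pool.Agent.Results.MP_f3eb7e_an.LegendreHull
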